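import Mathlib

/-!
Always-marking 1-limited automata: generic crossing arguments.
-/

namespace Pool.Agent.H38.Lim

open Relation

structure Aut (Q A : Type) where
  L : Q → Set (Q × Bool)
  R : Q → Set (Q × Bool)
  U : Q → A → Set (Q × Bool)
  M : Q → A → Set (Q × Bool)
  I : Q
  F : Set Q

variable {Q Q' A A' : Type}

theorem rtg_map {α β : Type} {r : α → α → Prop} {s : β → β → Prop} (f : α → β)
    (h : ∀ a b, r a b → s (f a) (f b)) {a b : α} (hab : ReflTransGen r a b) :
    ReflTransGen s (f a) (f b) := by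
  induction hab with
  | refl => exact .refl
  | tail _ hs ih => exact ih.tail (h _ _ hs)

def Aut.Step (D : Aut Q A) (w : List A) (x y : Q × ℕ × ℕ) : Prop :=
  (x.2.1 = 0 ∧ (y.1, true) ∈ D.L x.1 ∧ y.2.1 = 1 ∧ y.2.2 = x.2.2) ∨
  (x.2.1 = w.length + 1 ∧ (y.1, false) ∈ D.R x.1 ∧ y.2.1 = w.length ∧ y.2.2 = x.2.2) ∨
  (∃ a : A, 1 ≤ x.2.1 ∧ w[x.2.1 - 1]? = some a ∧ ∃ b : Bool,
    (y.1, b) ∈ (if x.2.1 ≤ x.2.2 then D.M x.1 a else D.U x.1 a) ∧
    y.2.1 = (if b then x.2.1 + 1 else x.2.1 - 1) ∧ y.2.2 = max x.2.2 x.2.1)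

def Aut.Acc (D : Aut Q A) (w : List A) : Prop :=
  ∃ q : Q, ∃ i j : ℕ, ReflTransGen (D.Step w) (D.I, 1, 0) (q, i, j) ∧
    i = w.length + 1 ∧ ∃ q' ∈ D.F, (q', true) ∈ D.R q

/-- pull back along maps of states and letters -/
def Aut.pull (D : Aut Q A) (d : Q' → Q) (g : A' → A) (i : Q') : Aut Q' A' where
  L q := {p | (d p.1, p.2) ∈ D.L (d q)}
  R q := {p | (d p.1, p.2) ∈ D.R (d q)}
  U q a := {p | (d p.1, p.2) ∈ D.U (d q) (g a)}
  M q a := {p | (d p.1, p.2) ∈ D.M (d q) (g a)}
  I := i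
  F := {p | d p ∈ D.F}

theorem pull_step (D : Aut Q A) (d : Q' → Q) (g : A' → A) (i : Q') (w : List A')
    (x y : Q' × ℕ × ℕ) :
    (D.pull d g i).Step w x y ↔ D.Step (w.map g) (d x.1, x.2) (d y.1, y.2) := by
  unfold Aut.Step
  refine or_congr Iff.rfl (or_congr (by simp [Aut.pull]) ?_)
  constructor
  · rintro ⟨a, h1, h2, b, h3, h4⟩
    refine ⟨g a, h1, by simp [h2], b, ?_, h4⟩
    dsimp only at h3 ⊢
    split_ifs at h3 ⊢ <;> exact h3
  · rintro ⟨a, h1, h2, b, h3, h4⟩
    simp only [List.getElem?_map, Option.map_eq_some_iff] at h2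
    obtain ⟨a', h2, rfl⟩ := h2
    refine ⟨a', h1, h2, b, ?_, h4⟩
    dsimp only at h3 ⊢
    split_ifs at h3 ⊢ <;> exact h3

theorem pull_acc (D : Aut Q A) (d : Q' → Q) (hd : Function.Surjective d) (g : A' → A) (i : Q')
    (hi : d i = D.I) (w : List A') : (D.pull d g i).Acc w ↔ D.Acc (w.map g) := by
  constructor
  · rintro ⟨q, a, b, h, e, q', h1, h2⟩
    refine ⟨d q, a, b, ?_, by simpa using e, d q', h1, h2⟩
    have := rtg_map (fun x : Q' × ℕ × ℕ => (d x.1, x.2))
      (fun x y h => (pull_step D d g i w x y).1 h) h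
    rw [← hi]; exact this
  · rintro ⟨q, a, b, h, e, q', h1, h2⟩
    have key : ∀ c, ReflTransGen (D.Step (w.map g)) (D.I, 1, 0) c →
        ∃ p, d p = c.1 ∧ ReflTransGen ((D.pull d g i).Step w) (i, 1, 0) (p, c.2) := by
      intro c hc
      induction hc with
      | refl => exact ⟨i, hi, .refl⟩
      | @tail x y _ hs ih =>
        obtain ⟨p, e, hp⟩ := ih
        obtain ⟨p', e'⟩ := hd y.1
        refine ⟨p', e', hp.tail ((pull_step D d g i w _ _).2 ?_)⟩
        simpa [e, e'] using hs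
    obtain ⟨p, e1, hp⟩ := key _ h
    obtain ⟨p', rfl⟩ := hd q'
    refine ⟨p, a, b, hp, by simpa using e, p', h1, ?_⟩
    change (d p', true) ∈ D.R (d p)
    rw [e1]; exact h2

/-- steps inside the part `u` before the first visit to the next cell -/
def Aut.Pre (D : Aut Q A) (u : List A) (x y : Q × ℕ × ℕ) : Prop :=
  x.2.1 ≤ u.length ∧ D.Step u x y

def Aut.First (D : Aut Q A) (u : List A) (p : Q) : Prop :=
  ReflTransGen (D.Pre u) (D.I, 1, 0) (p, u.length + 1, u.length)

theorem step_append (D : Aut Q A) (u v : List A) {x y : Q × ℕ × ℕ} (h : x.2.1 ≤ u.length) :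
    D.Step (u ++ v) x y ↔ D.Step u x y := by
  unfold Aut.Step
  refine or_congr Iff.rfl (or_congr ?_ ?_)
  · constructor <;> rintro ⟨h1, -⟩ <;> (try simp at h1) <;> omega
  · refine exists_congr fun a => and_congr_right fun h1 => ?_
    rw [List.getElem?_append_left (by omega)]

theorem first_reach (D : Aut Q A) {u : List A} (v : List A) {p : Q} (h : D.First u p) :
    ReflTransGen (D.Step (u ++ v)) (D.I, 1, 0) (p, u.length + 1, u.length) :=
  rtg_map id (fun _ _ h => (step_append D u v h.1).2 h.2) h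

theorem exists_first (D : Aut Q A) (u v : List A) {c : Q × ℕ × ℕ}
    (h : ReflTransGen (D.Step (u ++ v)) (D.I, 1, 0) c) (hc : u.length < c.2.1) :
    ∃ p, D.First u p ∧ ReflTransGen (D.Step (u ++ v)) (p, u.length + 1, u.length) c := by
  have key : ∀ c, ReflTransGen (D.Step (u ++ v)) (D.I, 1, 0) c →
      (ReflTransGen (D.Pre u) (D.I, 1, 0) c ∧ c.2.2 ≤ u.length ∧ c.2.1 ≤ c.2.2 + 1) ∨
      ∃ p, D.First u p ∧ ReflTransGen (D.Step (u ++ v)) (p, u.length + 1, u.length) c := by
    intro c hc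
    induction hc with
    | refl => exact Or.inl ⟨.refl, by simp, by simp⟩
    | @tail x y _ hs ih =>
      rcases ih with ⟨h1, h2, h3⟩ | ⟨p, h1, h2⟩
      · by_cases hx : x.2.1 ≤ u.length
        · have hs' := (step_append D u v hx).1 hs
          refine Or.inl ⟨h1.tail ⟨hx, hs'⟩, ?_⟩
          rcases hs' with h | h | ⟨a, -, -, b, -, h4, h5⟩
          · omega
          · omega
          · split_ifs at h4 <;> omega
        · obtain ⟨q, i, j⟩ := x
          simp only at hx h2 h3
          obtain rfl : i = u.length + 1 := by omega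
          obtain rfl : j = u.length := by omega
          exact Or.inr ⟨q, h1, .single hs⟩
      · exact Or.inr ⟨p, h1, h2.tail hs⟩
  rcases key c h with ⟨h1, h2, h3⟩ | h
  · obtain ⟨q, i, j⟩ := c
    simp only at hc h2 h3
    obtain rfl : i = u.length + 1 := by omega
    obtain rfl : j = u.length := by omega
    exact ⟨q, h1, .refl⟩
  · exact h

structure Aut.Det (D : Aut Q A) : Prop where
  L : ∀ q, (D.L q).Subsingleton
  U : ∀ q a, (D.U q a).Subsingleton
  M : ∀ q a, (D.M q a).Subsingleton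

theorem first_unique {D : Aut Q A} (hD : D.Det) {u : List A} {p p' : Q} (h : D.First u p)
    (h' : D.First u p') : p = p' := by
  have ru : Relator.RightUnique (D.Pre u) := by
    rintro x y y' ⟨h1, h2⟩ ⟨-, h3⟩
    rcases h2 with h2 | h2 | ⟨a, h2, h4, b, h5, h6, h7⟩
    · rcases h3 with h3 | h3 | ⟨a', h3, -⟩
      · have := hD.L _ h2.2.1 h3.2.1
        simp only [Prod.mk.injEq, and_true] at this
        exact Prod.ext this (Prod.ext (by omega) (by omega))
      · omega
      · omega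
    · omega
    · rcases h3 with h3 | h3 | ⟨a', h3, h4', b', h5', h6', h7'⟩
      · omega
      · omega
      · obtain rfl : a = a' := by simpa [h4] using h4'
        have : (y.1, b) = (y'.1, b') := by
          split_ifs at h5 h5'
          · exact hD.M _ _ h5 h5'
          · exact hD.U _ _ h5 h5'
        simp only [Prod.mk.injEq] at this
        obtain ⟨e1, rfl⟩ := this
        exact Prod.ext e1 (Prod.ext (by omega) (by omega))
  have fin : ∀ {a b : Q}, ReflTransGen (D.Pre u) (a, u.length + 1, u.length)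
      (b, u.length + 1, u.length) → a = b := by
    intro a b h
    rcases h.cases_head with h | ⟨c, h, -⟩
    · simpa using h
    · have := h.1; simp at this
  rcases ReflTransGen.total_of_right_unique ru h h' with h | h
  · exact fin h
  · exact (fin h).symm

/-- steps on a marked segment -/
def Aut.In (D : Aut Q A) (y : List A) (x x' : Q × ℕ) : Prop :=
  ∃ a : A, 1 ≤ x.2 ∧ y[x.2 - 1]? = some a ∧ ∃ b : Bool,
    (x'.1, b) ∈ D.M x.1 a ∧ x'.2 = (if b then x.2 + 1 else x.2 - 1)

/-- crossing table of a marked segment -/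
def Aut.Tab (D : Aut Q A) (y : List A) : Set ((Q × Bool) × (Q × Bool)) :=
  {t | ReflTransGen (D.In y) (t.1.1, if t.1.2 then y.length else 1)
    (t.2.1, if t.2.2 then y.length + 1 else 0)}

theorem in_lift (D : Aut Q A) (z e : A) (y : List A) {x x' : Q × ℕ}
    (h : ReflTransGen (D.In y) x x') :
    ReflTransGen (D.Step (z :: y ++ [e])) (x.1, x.2 + 1, y.length + 2)
      (x'.1, x'.2 + 1, y.length + 2) := by
  refine rtg_map (fun x : Q × ℕ => (x.1, x.2 + 1, y.length + 2)) ?_ h
  rintro x x' ⟨a, h1, h2, b, h3, h4⟩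
  have hlt : x.2 - 1 < y.length := (List.getElem?_eq_some_iff.1 h2).1
  refine Or.inr (Or.inr ⟨a, by simp, ?_, b, ?_, ?_, ?_⟩)
  · obtain ⟨r, hr⟩ : ∃ r, x.2 = r + 1 := ⟨x.2 - 1, by omega⟩
    simp only [hr, Nat.add_sub_cancel] at h2 hlt ⊢
    rw [List.cons_append, List.getElem?_cons_succ, List.getElem?_append_left hlt, h2]
  · dsimp only
    rw [if_pos (by omega)]; exact h3
  · dsimp only
    split_ifs at h4 ⊢ <;> omega
  · dsimp only
    omega

theorem transfer (D : Aut Q A) (z e : A) {y y' : List A} (hl : y.length = y'.length)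
    (hT : D.Tab y ⊆ D.Tab y') (hF : ∀ p, D.First (z :: y) p → D.First (z :: y') p)
    (h : D.Acc (z :: y ++ [e])) : D.Acc (z :: y' ++ [e]) := by
  obtain ⟨q, i, j, h, hi, hq⟩ := h
  obtain ⟨p, hp, h⟩ := exists_first D (z :: y) [e] h (by simp at hi ⊢; omega)
  have h0 := first_reach D [e] (hF p hp)
  simp only [List.length_cons, ← hl] at h h0
  obtain ⟨n, hn⟩ : ∃ n, y.length = n := ⟨_, rfl⟩
  have hn' : y'.length = n := hl ▸ hn
  simp only [hn, hn'] at h h0
  set R' := ReflTransGen (D.Step (z :: y' ++ [e])) (D.I, 1, 0) with hR'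
  have outer : ∀ {x x' : Q × ℕ × ℕ}, x.2.1 ≤ 1 ∨ n + 2 ≤ x.2.1 → D.Step (z :: y ++ [e]) x x' →
      D.Step (z :: y' ++ [e]) x x' := by
    intro x x' hx hs
    rcases hs with hs | hs | ⟨a, h1, h2, hs⟩
    · exact Or.inl hs
    · refine Or.inr (Or.inl ?_)
      simpa [hn, hn'] using hs
    · refine Or.inr (Or.inr ⟨a, h1, ?_, hs⟩)
      rcases hx with hx | hx
      · rw [show x.2.1 - 1 = 0 by omega] at h2 ⊢
        simpa using h2
      · rw [List.getElem?_append_right (by simp; omega)] at h2 ⊢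
        simpa [hn, hn'] using h2
  have close : ∀ {c : Q × ℕ × ℕ}, c.2.2 = n + 2 → c.2.1 = 1 ∨ c.2.1 = n + 2 →
      (∃ (p0 : Q) (s : Bool), R' (p0, (if s then n else 1) + 1, n + 2) ∧
        ReflTransGen (D.In y) (p0, if s then n else 1) (c.1, c.2.1 - 1)) → R' c := by
    rintro ⟨q, i, j⟩ hj hi ⟨p0, s, h1, h2⟩
    simp only at hj hi h2
    subst hj
    rcases hi with rfl | rfl
    · have : ((p0, s), (q, false)) ∈ D.Tab y := by simpa [Aut.Tab, hn] using h2
      have := in_lift D z e y' (hT this)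
      simp only [hn'] at this
      exact h1.trans this
    · have : ((p0, s), (q, true)) ∈ D.Tab y := by simpa [Aut.Tab, hn] using h2
      have := in_lift D z e y' (hT this)
      simp only [hn'] at this
      exact h1.trans this
  have key : ∀ c, ReflTransGen (D.Step (z :: y ++ [e])) (p, n + 1 + 1, n + 1) c →
      ((c.2.1 ≤ 1 ∨ n + 2 ≤ c.2.1) ∧ R' c ∧ (c.2.2 = n + 2 ∨ (c.2.2 = n + 1 ∧ c.2.1 = n + 2))) ∨
      (c.2.2 = n + 2 ∧ 2 ≤ c.2.1 ∧ c.2.1 ≤ n + 1 ∧ ∃ (p0 : Q) (s : Bool),
        R' (p0, (if s then n else 1) + 1, n + 2) ∧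
        ReflTransGen (D.In y) (p0, if s then n else 1) (c.1, c.2.1 - 1)) := by
    intro c hc
    induction hc with
    | refl => exact Or.inl ⟨by simp, h0, by simp⟩
    | @tail x x' _ hs ih =>
      rcases ih with ⟨h1, h2, h3⟩ | ⟨h1, h2, h3, p0, s, h4, h5⟩
      · have h4 : R' x' := h2.tail (outer h1 hs)
        have h5 : x'.2.2 = n + 2 ∧ (x'.2.1 ≤ 2 ∨ n + 1 ≤ x'.2.1) := by
          rcases hs with hs | hs | ⟨a, h5, h6, b, -, h7, h8⟩
          · omega
          · simp at hs; omega
          · have := (List.getElem?_eq_some_iff.1 h6).1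
            simp at this
            split_ifs at h7 <;> omega
        by_cases h6 : x'.2.1 ≤ 1 ∨ n + 2 ≤ x'.2.1
        · exact Or.inl ⟨h6, h4, Or.inl h5.1⟩
        · refine Or.inr ⟨h5.1, by omega, by omega, x'.1, ?_⟩
          obtain ⟨q', i', j'⟩ := x'
          simp only at h5 h6 ⊢
          obtain ⟨rfl, h5 | h5⟩ := h5
          · obtain rfl : i' = 2 := by omega
            exact ⟨false, h4, .refl⟩
          · obtain rfl : i' = n + 1 := by omega
            exact ⟨true, h4, .refl⟩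
      · rcases hs with hs | hs | ⟨a, h6, h7, b, h8, h9, h10⟩
        · omega
        · simp at hs; omega
        · have h11 : D.In y (x.1, x.2.1 - 1) (x'.1, x'.2.1 - 1) := by
            refine ⟨a, by dsimp only; omega, ?_, b, ?_, ?_⟩
            · obtain ⟨r, hr⟩ : ∃ r, x.2.1 = r + 2 := ⟨x.2.1 - 2, by omega⟩
              simp only [hr] at h7 ⊢
              rw [show r + 2 - 1 = r + 1 by omega, List.cons_append, List.getElem?_cons_succ,
                List.getElem?_append_left (by omega)] at h7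
              exact h7
            · rw [if_pos (by omega)] at h8; exact h8
            · dsimp only
              split_ifs at h9 ⊢ <;> omega
          have h12 : x'.2.2 = n + 2 := by omega
          by_cases h13 : x'.2.1 = 1 ∨ x'.2.1 = n + 2
          · exact Or.inl ⟨by omega, close h12 h13 ⟨p0, s, h4, h5.tail h11⟩, Or.inl h12⟩
          · refine Or.inr ⟨h12, ?_, ?_, p0, s, h4, h5.tail h11⟩ <;>
              split_ifs at h9 <;> omega
  rcases key _ h with ⟨-, h2, -⟩ | ⟨-, -, h2, -⟩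
  · exact ⟨q, i, j, h2, by simpa [hn, hn'] using hi, hq⟩
  · simp at hi h2; omega

end Pool.Agent.H38.Lim
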