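import Pool.Agent.H38.Lim.Gen

/-!
The witness automaton and the counting bound.
-/

namespace Pool.Agent.H38.Lim

open Relation

inductive St (n : ℕ)
  | S | A | R (r : Fin (n + 1)) | L (r : Fin n) (b : Bool) | E (l : Fin n)

inductive Let (n : ℕ)
  | Z (z : Fin n → Bool) | X (b : Bool) | Lab (s : Fin n → Bool) | End (l : Fin n)

variable {n : ℕ}

def Let.IsZ : Let n → Prop
  | .Z _ => True
  | _ => False

def wit (n : ℕ) : Aut (St n) (Let n) where
  L _ := ∅
  R q := {p | q = .A ∧ p = (.A, true)}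
  U q a := {p | (q = .S ∧ (p = (.S, true) ∨ p = (.R 0, true))) ∨
    (∃ (r : Fin n) (b : Bool), q = .R r.castSucc ∧ a = .X b ∧ p = (.L r b, false)) ∨
    (∃ s l, q = .R (Fin.last n) ∧ a = .Lab s ∧ s l = true ∧ p = (.E l, true)) ∨
    (∃ l, q = .E l ∧ (p = (.E l, true) ∨ (a = .End l ∧ p = (.A, true))))}
  M q a := {p | (∃ r, q = .R r ∧ p = (.R r, true)) ∨
    (∃ r b, q = .L r b ∧ ((¬ a.IsZ ∧ p = (.L r b, false)) ∨
      ∃ z, a = .Z z ∧ z r = b ∧ p = (.R r.succ, true)))}
  I := .S
  F := {.A}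

def Good (w : List (Let n)) (z : Fin n → Bool) (l : Fin n) : Prop :=
  ∃ (a : ℕ) (s : Fin n → Bool), 1 ≤ a ∧ (∀ t : Fin n, w[a + t]? = some (.X (z t))) ∧ w[a + n]? = some (.Lab s) ∧
    s l = true

def Inv (w : List (Let n)) (z : Fin n → Bool) : St n → ℕ → ℕ → Prop
  | .S, i, j => i = j + 1
  | .R r, i, j => i ≤ j + 1 ∧ ∃ a : ℕ, 1 ≤ a ∧ j = a + r ∧
      ∀ t : Fin n, t.val < r.val → w[a + t]? = some (.X (z t))
  | .L r b, i, j => i ≤ j ∧ ∃ a : ℕ, 1 ≤ a ∧ j = a + r + 1 ∧
      (∀ t : Fin n, t.val < r.val → w[a + t]? = some (.X (z t))) ∧ w[a + r]? = some (.X b)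
  | .E l, _, _ => Good w z l
  | .A, _, _ => ∃ l, Good w z l ∧ .End l ∈ w

theorem sound {w : List (Let n)} {z : Fin n → Bool} (hz : ∀ z', .Z z' ∈ w → z' = z)
    (h : (wit n).Acc w) : ∃ l, Good w z l ∧ .End l ∈ w := by
  obtain ⟨q, i, j, h, -, q', -, rfl, -⟩ := h
  have key : ∀ c, ReflTransGen ((wit n).Step w) (.S, 1, 0) c → Inv w z c.1 c.2.1 c.2.2 := by
    intro c hc
    induction hc with
    | refl => simp [Inv]
    | @tail x y _ hs ih =>
      obtain ⟨q, i, j⟩ := x
      obtain ⟨q', i', j'⟩ := y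
      rcases hs with hs | hs | ⟨a, h1, h2, b, h3, h4, h5⟩
      · exact hs.2.1.elim
      · exact absurd hs.2.1.2 (by simp)
      simp only at h1 h2 h3 h4 h5 ih ⊢
      have ha : a ∈ w := List.mem_of_getElem? h2
      split_ifs at h3 with hij
      · rcases h3 with ⟨r, rfl, e⟩ | ⟨r, b', rfl, ⟨h6, e⟩ | ⟨z', rfl, h6, e⟩⟩ <;>
          obtain ⟨rfl, rfl⟩ := Prod.mk.inj e <;> simp only [Inv] at ih ⊢ <;>
          simp only [if_true, Bool.false_eq_true, if_false] at h4
        · obtain ⟨-, a, h7, h8, h9⟩ := ih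
          exact ⟨by omega, a, h7, by omega, h9⟩
        · obtain ⟨-, a, h7, h8, h9⟩ := ih
          exact ⟨by omega, a, h7, by omega, h9⟩
        · obtain ⟨-, a, h7, h8, h9, h10⟩ := ih
          obtain rfl := hz _ ha
          refine ⟨by omega, a, h7, by simp; omega, fun t ht => ?_⟩
          by_cases e : t = r
          · subst e; rw [h6]; exact h10
          · refine h9 t ?_
            have : t.val ≠ r.val := fun h => e (Fin.ext h)
            simp at ht; omega
      · rcases h3 with ⟨rfl, e | e⟩ | ⟨r, b', rfl, rfl, e⟩ | ⟨s, l, rfl, rfl, h6, e⟩ |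
            ⟨l, rfl, e | ⟨rfl, e⟩⟩ <;>
          obtain ⟨rfl, rfl⟩ := Prod.mk.inj e <;> simp only [Inv] at ih ⊢ <;>
          simp only [if_true, Bool.false_eq_true, if_false] at h4
        · omega
        · exact ⟨by omega, i, h1, by simp; omega, fun t ht => by simp at ht⟩
        · obtain ⟨h6, a, h7, h8, h9⟩ := ih
          simp only [Fin.val_castSucc] at h8 h9
          refine ⟨by omega, a, h7, by omega, h9, ?_⟩
          rwa [show a + r = i - 1 by omega]
        · obtain ⟨h6', a, h7, h8, h9⟩ := ih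
          simp only [Fin.val_last] at h8 h9
          refine ⟨a, s, h7, fun t => h9 t t.2, ?_, h6⟩
          rwa [show a + n = i - 1 by omega]
        · exact ih
        · exact ⟨l, ih, ha⟩
  exact key _ h

section complete

variable {w : List (Let n)}

abbrev Rch (w : List (Let n)) := ReflTransGen ((wit n).Step w)

theorem stepU {q q' : St n} {j : ℕ} {a : Let n} {b : Bool} (h : w[j]? = some a)
    (h' : (q', b) ∈ (wit n).U q a) :
    Rch w (q, j + 1, j) (q', if b then j + 2 else j, j + 1) :=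
  .single (Or.inr (Or.inr ⟨a, by simp, h, b, by simpa using h', by simp, by simp⟩))

theorem stepM {q q' : St n} {i j : ℕ} {a : Let n} {b : Bool} (h : w[i]? = some a) (hij : i < j)
    (h' : (q', b) ∈ (wit n).M q a) :
    Rch w (q, i + 1, j) (q', if b then i + 2 else i, j) :=
  .single (Or.inr (Or.inr ⟨a, by simp, h, b, by
    dsimp only; rw [if_pos (by omega)]; exact h', by simp, by dsimp only; omega⟩))

theorem ex_get {i : ℕ} (h : i < w.length) : ∃ a, w[i]? = some a := ⟨w[i], by simp [h]⟩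

theorem runS {j : ℕ} (h : j ≤ w.length) : Rch w (.S, 1, 0) (.S, j + 1, j) := by
  induction j with
  | zero => exact .refl
  | succ j ih =>
    obtain ⟨a, ha⟩ := ex_get (w := w) (i := j) (by omega)
    exact (ih (by omega)).trans (stepU (b := true) ha (Or.inl ⟨rfl, Or.inl rfl⟩))

theorem runE {l : Fin n} {j : ℕ} (d : ℕ) (h : j + d ≤ w.length) :
    Rch w (.E l, j + 1, j) (.E l, j + d + 1, j + d) := by
  induction d with
  | zero => exact .refl
  | succ d ih =>
    obtain ⟨a, ha⟩ := ex_get (w := w) (i := j + d) (by omega)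
    exact (ih (by omega)).trans
      (stepU (b := true) ha (Or.inr (Or.inr (Or.inr ⟨l, rfl, Or.inl rfl⟩))))

theorem runR {r : Fin (n + 1)} {i j : ℕ} (d : ℕ) (h : i + d ≤ j) (hj : j ≤ w.length) :
    Rch w (.R r, i + 1, j) (.R r, i + d + 1, j) := by
  induction d with
  | zero => exact .refl
  | succ d ih =>
    obtain ⟨a, ha⟩ := ex_get (w := w) (i := i + d) (by omega)
    exact (ih (by omega)).trans (stepM (b := true) ha (by omega) (Or.inl ⟨r, rfl, rfl⟩))

theorem runL (hz : ∀ i a, 1 ≤ i → w[i]? = some a → ¬ a.IsZ) {r : Fin n} {b : Bool} {j : ℕ}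
    (d : ℕ) (h : d < j) (hj : j ≤ w.length) :
    Rch w (.L r b, d + 1, j) (.L r b, 1, j) := by
  induction d with
  | zero => exact .refl
  | succ d ih =>
    obtain ⟨a, ha⟩ := ex_get (w := w) (i := d + 1) (by omega)
    exact (stepM (b := false) ha (by omega)
      (Or.inr ⟨r, b, rfl, Or.inl ⟨hz _ _ (by omega) ha, rfl⟩⟩)).trans (ih (by omega))

theorem complete {z : Fin n → Bool} {l : Fin n} (h0 : w[0]? = some (.Z z))
    (hz : ∀ i a, 1 ≤ i → w[i]? = some a → ¬ a.IsZ) (hg : Good w z l)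
    (he : w[w.length - 1]? = some (.End l)) : (wit n).Acc w := by
  obtain ⟨a, s, h1, h2, h3, h4⟩ := hg
  have hlt : a + n < w.length := (List.getElem?_eq_some_iff.1 h3).1
  have hlt' : a + n + 1 < w.length := by
    by_contra hc
    rw [show w.length - 1 = a + n by omega, h3] at he
    simp at he
  obtain ⟨a, rfl⟩ : ∃ a', a = a' + 1 := ⟨a - 1, by omega⟩
  obtain ⟨c, hc⟩ := ex_get (w := w) (i := a) (by omega)
  have r0 : Rch w (.S, 1, 0) (.R 0, a + 1 + 0 + 1, a + 1 + 0) :=
    (runS (j := a) (by omega)).trans (stepU (b := true) hc (Or.inl ⟨rfl, Or.inr rfl⟩))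
  have r1 : ∀ r : ℕ, ∀ hr : r < n + 1, Rch w (.S, 1, 0) (.R ⟨r, hr⟩, a + 1 + r + 1, a + 1 + r) := by
    intro r
    induction r with
    | zero => intro _; exact r0
    | succ r ih =>
      intro hr
      have hr' : r < n := by omega
      refine (ih (by omega)).trans ?_
      refine (stepU (b := false) (q' := .L ⟨r, hr'⟩ (z ⟨r, hr'⟩)) (h2 ⟨r, hr'⟩)
        (Or.inr (Or.inl ⟨⟨r, hr'⟩, _, rfl, rfl, rfl⟩))).trans ?_
      simp only [Bool.false_eq_true, if_false]
      rw [show a + 1 + r = a + r + 1 by omega]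
      refine (runL hz (a + r) (by omega) (by omega)).trans ?_
      refine (stepM (b := true) (q' := .R ⟨r + 1, hr⟩) h0 (by omega)
        (Or.inr ⟨_, _, rfl, Or.inr ⟨z, rfl, rfl, rfl⟩⟩)).trans ?_
      have := runR (w := w) (r := ⟨r + 1, hr⟩) (i := 1) (j := a + r + 1 + 1) (a + r + 1)
        (by omega) (by omega)
      simp only [if_true]
      convert this using 3 <;> omega
  have r2 := (r1 n (by omega)).trans (stepU (b := true) (q' := .E l) h3
    (Or.inr (Or.inr (Or.inl ⟨s, l, rfl, rfl, h4, rfl⟩))))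
  have r3 := r2.trans (runE (l := l) (j := a + 1 + n + 1) (w.length - 1 - (a + 1 + n + 1))
    (by omega))
  rw [show a + 1 + n + 1 + (w.length - 1 - (a + 1 + n + 1)) = w.length - 1 by omega] at r3
  have r4 := r3.trans (stepU (b := true) (q' := .A) he
    (Or.inr (Or.inr (Or.inr ⟨l, rfl, Or.inr ⟨rfl, rfl⟩⟩))))
  exact ⟨.A, _, _, r4, by simp; omega, .A, rfl, rfl, rfl⟩

end complete

/-- the block for `x` -/
def blk (S : (Fin n → Bool) → Fin n → Bool) (x : Fin n → Bool) : List (Let n) :=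
  List.ofFn (fun t => .X (x t)) ++ [.Lab (S x)]

def mid (S : (Fin n → Bool) → Fin n → Bool) (xs : List (Fin n → Bool)) : List (Let n) :=
  xs.flatMap (blk S)

theorem length_mid (S : (Fin n → Bool) → Fin n → Bool) (xs : List (Fin n → Bool)) :
    (mid S xs).length = xs.length * (n + 1) := by
  induction xs with
  | nil => simp [mid]
  | cons x xs ih =>
    simp only [mid, List.flatMap_cons, List.length_append, List.length_cons] at ih ⊢
    rw [ih]; simp [blk]; ring

theorem mem_mid {S : (Fin n → Bool) → Fin n → Bool} {xs : List (Fin n → Bool)} {a : Let n}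
    (h : a ∈ mid S xs) : (∃ b, a = .X b) ∨ ∃ s, a = .Lab s := by
  simp only [mid, blk, List.mem_flatMap, List.mem_append, List.mem_ofFn, List.mem_singleton] at h
  obtain ⟨x, -, ⟨t, rfl⟩ | rfl⟩ := h
  · exact Or.inl ⟨_, rfl⟩
  · exact Or.inr ⟨_, rfl⟩

theorem blk_get (S : (Fin n → Bool) → Fin n → Bool) (x : Fin n → Bool) (v : List (Let n)) :
    (∀ t : Fin n, (blk S x ++ v)[t.val]? = some (.X (x t))) ∧
      (blk S x ++ v)[n]? = some (.Lab (S x)) := by
  constructor
  · intro t
    rw [blk, List.append_assoc, List.getElem?_append_left (by simp)]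
    simp
  · rw [blk, List.append_assoc, List.getElem?_append_right (by simp)]
    simp

theorem lab_pos (S : (Fin n → Bool) → Fin n → Bool) (xs : List (Fin n → Bool)) {p : ℕ}
    {s : Fin n → Bool} (h : (mid S xs)[p]? = some (.Lab s)) :
    ∃ (x : Fin n → Bool) (a : ℕ), p = a + n ∧ s = S x ∧ ∀ t : Fin n, (mid S xs)[a + t]? = some (.X (x t)) := by
  induction xs generalizing p with
  | nil => simp [mid] at h
  | cons x xs ih =>
    have e : mid S (x :: xs) = blk S x ++ mid S xs := rfl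
    have hl : (blk S x).length = n + 1 := by simp [blk]
    have hb := blk_get S x (mid S xs)
    rw [e] at h ⊢
    rcases lt_trichotomy p n with hp | rfl | hp
    · rw [hb.1 ⟨p, hp⟩] at h; simp at h
    · rw [hb.2] at h
      exact ⟨x, 0, by simp, by simpa using h.symm, fun t => by simpa using hb.1 t⟩
    · rw [List.getElem?_append_right (by omega), hl] at h
      obtain ⟨x', a, h1, h2, h3⟩ := ih h
      refine ⟨x', a + (n + 1), by omega, h2, fun t => ?_⟩
      rw [List.getElem?_append_right (by omega), hl, ← h3 t]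
      congr 1; omega

theorem blk_pos (S : (Fin n → Bool) → Fin n → Bool) {xs : List (Fin n → Bool)}
    {x : Fin n → Bool} (h : x ∈ xs) : ∃ a : ℕ, (∀ t : Fin n, (mid S xs)[a + t]? = some (.X (x t))) ∧
      (mid S xs)[a + n]? = some (.Lab (S x)) := by
  obtain ⟨u, v, rfl⟩ := List.append_of_mem h
  have e : mid S (u ++ x :: v) = mid S u ++ (blk S x ++ mid S v) := by simp [mid]
  have hb := blk_get S x (mid S v)
  refine ⟨(mid S u).length, fun t => ?_, ?_⟩ <;>
    rw [e, List.getElem?_append_right (by omega), Nat.add_sub_cancel_left]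
  · exact hb.1 t
  · exact hb.2

theorem acc_iff (S : (Fin n → Bool) → Fin n → Bool) {xs : List (Fin n → Bool)}
    {z : Fin n → Bool} (hz : z ∈ xs) (l : Fin n) :
    (wit n).Acc (.Z z :: mid S xs ++ [.End l]) ↔ S z l = true := by
  have get : ∀ {p : ℕ} {a : Let n}, (.Z z :: mid S xs ++ [.End l])[p + 1]? = some a ↔
      (mid S xs)[p]? = some a ∨ (p = (mid S xs).length ∧ a = .End l) := by
    intro p a
    rw [List.cons_append, List.getElem?_cons_succ]
    rcases lt_trichotomy p (mid S xs).length with h | h | h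
    · rw [List.getElem?_append_left h]; simp [h.ne]
    · subst h; simp [eq_comm]
    · rw [List.getElem?_eq_none (by simp; omega), List.getElem?_eq_none (by omega)]
      simp [h.ne']
  constructor
  · intro h
    obtain ⟨l', ⟨a, s, h1, h2, h3, h4⟩, h5⟩ := sound (z := z) (fun z' hz' => by
      simp only [List.cons_append, List.mem_cons, List.mem_append] at hz'
      rcases hz' with h | h | h
      · simpa using h
      · rcases mem_mid h with ⟨_, h⟩ | ⟨_, h⟩ <;> simp at h
      · simp at h) h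
    obtain rfl : l' = l := by
      simp only [List.cons_append, List.mem_cons, List.mem_append] at h5
      rcases h5 with h | h | h
      · simp at h
      · rcases mem_mid h with ⟨_, h⟩ | ⟨_, h⟩ <;> simp at h
      · simpa using h
    obtain ⟨a, rfl⟩ : ∃ a', a = a' + 1 := ⟨a - 1, by omega⟩
    rw [show a + 1 + n = a + n + 1 by omega, get] at h3
    obtain ⟨x, a', h6, rfl, h7⟩ := lab_pos S xs (h3.resolve_right (by simp))
    obtain rfl : a = a' := by omega
    obtain rfl : x = z := funext fun t => by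
      have := h2 t
      rw [show a + 1 + t = a + t + 1 by omega, get, h7 t] at this
      simpa using this
    exact h4
  · intro h
    obtain ⟨a, h1, h2⟩ := blk_pos S hz
    refine complete (z := z) (l := l) (by simp) (fun i c hi hc => ?_)
      ⟨a + 1, S z, by omega, fun t => ?_, ?_, h⟩ (by simp)
    · obtain ⟨i, rfl⟩ : ∃ a', i = a' + 1 := ⟨i - 1, by omega⟩
      rcases get.1 hc with h | ⟨-, rfl⟩
      · rcases mem_mid (List.mem_of_getElem? h) with ⟨_, rfl⟩ | ⟨_, rfl⟩ <;> exact id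
      · exact id
    · rw [show a + 1 + t = a + t + 1 by omega, get]; exact Or.inl (h1 t)
    · rw [show a + 1 + n = a + n + 1 by omega, get]; exact Or.inl h2

theorem count {P : Type} [Fintype P] {D : Aut P (Let n)} (hD : D.Det)
    (h : ∀ w, (wit n).Acc w ↔ D.Acc w) :
    (2 ^ n) ^ (2 ^ n) ≤ (Fintype.card P + 1) ^ (2 ^ n) * 2 ^ (4 * Fintype.card P ^ 2) := by
  classical
  let xs : List (Fin n → Bool) := Finset.univ.toList
  have hxs : ∀ z, z ∈ xs := fun z => by simp [xs]
  let f : ((Fin n → Bool) → Fin n → Bool) →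
      ((Fin n → Bool) → Option P) × Set ((P × Bool) × (P × Bool)) := fun S =>
    (fun z => if h : ∃ p, D.First (.Z z :: mid S xs) p then some h.choose else none,
      D.Tab (mid S xs))
  have hf : ∀ S S', f S = f S' → ∀ z l, S z l = true → S' z l = true := by
    intro S S' e z l
    rw [← acc_iff S (hxs z), ← acc_iff S' (hxs z), h, h]
    refine transfer D _ _ (by simp [length_mid]) (congrArg Prod.snd e).le fun p hp => ?_
    have e1 := congrFun (congrArg Prod.fst e) z
    have h1 : ∃ p, D.First (.Z z :: mid S xs) p := ⟨p, hp⟩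
    simp only [f, dif_pos h1] at e1
    split_ifs at e1 with h2
    obtain e2 : h1.choose = h2.choose := by simpa using e1
    rw [first_unique hD hp h1.choose_spec, e2]
    exact h2.choose_spec
  have inj : Function.Injective f := fun S S' e => by
    funext z l
    exact Bool.eq_iff_iff.2 ⟨hf S S' e z l, hf S' S e.symm z l⟩
  have := Fintype.card_le_of_injective f inj
  simp only [Fintype.card_fun, Fintype.card_prod, Fintype.card_fin, Fintype.card_bool,
    Fintype.card_option, Fintype.card_set] at this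
  convert this using 3; ring

theorem count' {t m : ℕ} (ht : 1 ≤ t)
    (h : (2 ^ (4 * t)) ^ (2 ^ (4 * t)) ≤ (m + 1) ^ (2 ^ (4 * t)) * 2 ^ (4 * m ^ 2)) :
    2 ^ t ≤ m := by
  by_contra hc
  have h1 : m + 1 ≤ 2 ^ t := by omega
  have h2 : (m + 1) ^ (2 ^ (4 * t)) ≤ (2 ^ t) ^ (2 ^ (4 * t)) := Nat.pow_le_pow_left h1 _
  have h3 : 2 ^ (4 * m ^ 2) ≤ 2 ^ (4 * (2 ^ t) ^ 2) :=
    Nat.pow_le_pow_right (by norm_num) (by have : m ≤ 2 ^ t := by omega
                                           nlinarith)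
  have h4 := h.trans (Nat.mul_le_mul h2 h3)
  rw [← pow_mul, ← pow_mul, ← pow_add, Nat.pow_le_pow_iff_right (by norm_num)] at h4
  have h5 : 2 ^ (4 * t) = (2 ^ t) ^ 2 * (2 ^ t) ^ 2 := by ring
  have h6 : 2 ≤ 2 ^ t := by
    calc 2 = 2 ^ 1 := rfl
      _ ≤ 2 ^ t := Nat.pow_le_pow_right (by norm_num) ht
  rw [h5] at h4
  generalize 2 ^ t = u at *
  have : 4 ≤ u ^ 2 := by nlinarith
  generalize u ^ 2 = v at *
  have : v * v ≤ t * (v * v) := Nat.le_mul_of_pos_left _ ht
  nlinarith

theorem st_surj {N : ℕ} (h : 4 * n + 3 ≤ N) : ∃ d : Fin N → St n, Function.Surjective d := by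
  let g : Bool ⊕ Fin (n + 1) ⊕ (Fin n × Bool) ⊕ Fin n → St n :=
    Sum.elim (fun b => cond b .S .A) (Sum.elim .R (Sum.elim (fun p => .L p.1 p.2) .E))
  have hg : Function.Surjective g := by
    rintro (_ | _ | r | ⟨r, b⟩ | l)
    · exact ⟨.inl true, rfl⟩
    · exact ⟨.inl false, rfl⟩
    · exact ⟨.inr (.inl r), rfl⟩
    · exact ⟨.inr (.inr (.inl (r, b))), rfl⟩
    · exact ⟨.inr (.inr (.inr l)), rfl⟩
  obtain ⟨e⟩ : Nonempty ((Bool ⊕ Fin (n + 1) ⊕ (Fin n × Bool) ⊕ Fin n) ↪ Fin N) :=
    Function.Embedding.nonempty_of_card_le (by simp; omega)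
  exact ⟨g ∘ Function.invFun e, hg.comp (Function.invFun_surjective e.injective)⟩

instance : Finite (Let n) := by
  let g : (Fin n → Bool) ⊕ Bool ⊕ (Fin n → Bool) ⊕ Fin n → Let n :=
    Sum.elim .Z (Sum.elim .X (Sum.elim .Lab .End))
  refine Finite.of_surjective g ?_
  rintro (z | b | s | l)
  · exact ⟨.inl z, rfl⟩
  · exact ⟨.inr (.inl b), rfl⟩
  · exact ⟨.inr (.inr (.inl s)), rfl⟩
  · exact ⟨.inr (.inr (.inr l)), rfl⟩

theorem main {N : ℕ} (hN : 38 ≤ N) : ∃ (k : ℕ) (M : Aut (Fin N) (Fin k)),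
    ∀ (m : ℕ) (D : Aut (Fin m) (Fin k)), D.Det → (∀ w, M.Acc w ↔ D.Acc w) →
      (2 : ℝ) ^ ((1 / 32 : ℝ) * N) ≤ m := by
  obtain ⟨t, ht⟩ : ∃ t, t = (N - 3) / 16 := ⟨_, rfl⟩
  obtain ⟨d, hd⟩ := st_surj (n := 4 * t) (N := N) (by omega)
  obtain ⟨k, ⟨e⟩⟩ := Finite.exists_equiv_fin (Let (4 * t))
  obtain ⟨i, hi⟩ := hd (wit (4 * t)).I
  refine ⟨k, (wit _).pull d e.symm i, fun m D hD h => ?_⟩
  have h1 := count (D := D.pull id e D.I) ⟨hD.L, fun q a => hD.U q _, fun q a => hD.M q _⟩
    fun w => by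
      rw [pull_acc D id Function.surjective_id e D.I rfl, ← h, pull_acc _ d hd _ _ hi]
      simp
  rw [Fintype.card_fin] at h1
  have h2 := count' (by omega) h1
  calc (2 : ℝ) ^ ((1 / 32 : ℝ) * N) ≤ 2 ^ (t : ℝ) := by
        refine Real.rpow_le_rpow_of_exponent_le (by norm_num) ?_
        have : N ≤ 32 * t := by omega
        have : (N : ℝ) ≤ 32 * t := by exact_mod_cast this
        linarith
    _ ≤ m := by rw [Real.rpow_natCast]; exact_mod_cast h2

end Pool.Agent.H38.Lim
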